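import Pool.Agent.Y6.G.Stm
import Pool.Agent.Y590.EM.Tab
import Pool.Agent.Y812.EM.Vec1

/-!
# The main modes and the chain (job EP-TAB of helper6; helper651, port of `Y37/EF/Tab.lean` of helper37, after
helper590)
-/

open Set Filter Topology
open scoped ComplexConjugate

set_option autoImplicit false

namespace Pool.Agent.Y651.EP.Tab

open Pool.Agent.Y6.G
open Pool.Agent.Y6.M (qd mq Kz Ker Adm Dat TSol Wt KSol cX cY Uth εc x0 Mains MDat Z3 C3 Coef dt cr
  cj kc nsq len adv leray Kop IsField IsSol energy enstr Md hs br Frame cK sgz S_VEC1)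
open Pool.Agent.Y590.EM.Tab (mq_one mq_twice nsq_neg len_neg dt_comm triple triple' conj_dt cj_cj
  cj_cr cK_ne)

/-! ### lengths -/

theorem nsq_kx (n : ℕ) : nsq (kx n) = (al n : ℤ) ^ 2 := by
  unfold nsq kx
  generalize al n = A
  rw [Fin.sum_univ_three]
  have h : n % 3 = 0 ∨ n % 3 = 1 ∨ n % 3 = 2 := by omega
  rcases h with h | h | h <;> simp [h]

theorem len_kx (n : ℕ) : len (kx n) = αM n := by
  unfold len αM
  rw [nsq_kx]
  push_cast
  exact Real.sqrt_sq (Nat.cast_nonneg _)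

theorem nsq_ky (n : ℕ) : nsq (kx n + kx (n + 1)) = (al n : ℤ) ^ 2 + (al (n + 1) : ℤ) ^ 2 := by
  unfold nsq kx
  generalize al n = A
  generalize al (n + 1) = B
  rw [Fin.sum_univ_three]
  have h : (n % 3 = 0 ∧ (n + 1) % 3 = 1) ∨ (n % 3 = 1 ∧ (n + 1) % 3 = 2) ∨
    (n % 3 = 2 ∧ (n + 1) % 3 = 0) := by omega
  rcases h with ⟨h, h'⟩ | ⟨h, h'⟩ | ⟨h, h'⟩ <;> simp [h, h'] <;> ring

theorem len_ky (n : ℕ) : len (kx n + kx (n + 1)) = ρM n := by
  unfold len ρM αM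
  rw [nsq_ky]
  push_cast
  rfl

/-! ### the three sums -/

theorem conj_GM (h : Md → C3) (n : ℕ) : conj (GM h n) =
    2 * Real.pi * dt (h (Ym n)) (cr (cj (h (Xm n))) (cj (h (Xm (n + 1))))) := by
  unfold GM
  rw [map_mul, map_mul, conj_dt, cj_cj, cj_cr, Complex.conj_ofReal]
  congr 2
  exact Complex.conj_ofNat 2

theorem sumY (hV : S_VEC1) (h : Md → C3) (hF : Frame h) (n : ℕ) :
    cK h (Ym n) (Xm n) (Xm (n + 1)) + cK h (Ym n) (Xm (n + 1)) (Xm n) =
      GM h n * ((dM n : ℝ) : ℂ) := by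
  rw [hV h hF (Ym n) (Xm n) (Xm (n + 1)) rfl]
  have h1 : hs (Xm (n + 1)).2 * len (Xm (n + 1)).1.1 - hs (Xm n).2 * len (Xm n).1.1 = dM n := by
    change hs true * len (kx (n + 1)) - hs true * len (kx n) = dM n
    rw [len_kx, len_kx]
    simp [hs, dM]
  rw [h1]
  unfold GM
  rw [dt_comm (cj (h (Ym n)))]
  ring

theorem sumX1 (hV : S_VEC1) (h : Md → C3) (hF : Frame h) (n : ℕ) :
    cK h (Xm n) (Ym n) (br (Xm (n + 1))) + cK h (Xm n) (br (Xm (n + 1))) (Ym n) =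
      -(conj (GM h n) * ((bM n + dM n : ℝ) : ℂ)) := by
  rw [hV h hF (Xm n) (Ym n) (br (Xm (n + 1)))
    (by change kx n + kx (n + 1) + -kx (n + 1) = kx n; abel)]
  have h1 : hs (br (Xm (n + 1))).2 * len (br (Xm (n + 1))).1.1 - hs (Ym n).2 * len (Ym n).1.1 =
      bM n + dM n := by
    change hs true * len (-kx (n + 1)) - hs false * len (kx n + kx (n + 1)) = _
    rw [len_neg, len_kx, len_ky]
    simp only [hs, bM, dM, if_true, Bool.false_eq_true, if_false]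
    ring
  rw [h1, conj_GM, hF.bar, triple']
  ring

theorem sumX2 (hV : S_VEC1) (h : Md → C3) (hF : Frame h) (m : ℕ) :
    cK h (Xm (m + 1)) (Ym m) (br (Xm m)) + cK h (Xm (m + 1)) (br (Xm m)) (Ym m) =
      conj (GM h m) * ((bM m : ℝ) : ℂ) := by
  rw [hV h hF (Xm (m + 1)) (Ym m) (br (Xm m))
    (by change kx m + kx (m + 1) + -kx m = kx (m + 1); abel)]
  have h1 : hs (br (Xm m)).2 * len (br (Xm m)).1.1 - hs (Ym m).2 * len (Ym m).1.1 = bM m := by
    change hs true * len (-kx m) - hs false * len (kx m + kx (m + 1)) = _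
    rw [len_neg, len_kx, len_ky]
    simp only [hs, bM, if_true, Bool.false_eq_true, if_false]
    ring
  rw [h1, conj_GM, hF.bar, triple]
  ring

theorem Y_ne_brX (n m : ℕ) : Ym n ≠ br (Xm m) := by
  intro h
  have h1 := congrArg Prod.snd h
  exact Bool.false_ne_true h1

theorem t_TAB : Pool.Agent.Y6.G.S_TAB := by
  intro hLV hSUMS h hF
  have hVEC : S_VEC1 := Pool.Agent.Y812.EM.Vec1.t_VEC1
  obtain ⟨l1, l2, l3, l4, l5, l6, l7, injX, injY, l8, l9⟩ := hLV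
  obtain ⟨⟨s1, s2, s3⟩, -⟩ := hSUMS
  refine ⟨fun n => (l1 n).1, fun n => (l1 n).2.2.1, fun n => (l2 n).1, fun n => (l2 n).2.2.1,
    l3, ?_, ?_⟩
  · intro z hz n
    rcases n with _ | m
    · rw [mq_one σM (cK h) z (Xm 0) (Ym 0) (br (Xm 1)) (Y_ne_brX 0 1) (l2 0).2.2.1 (l2 1).2.1,
        sumX1 hVEC h hF 0, hz]
      · unfold cX
        ring
      · rintro ⟨a, b⟩ ha hb hc
        rcases s1 0 a b ha hb (cK_ne hc) with ⟨h1, h2⟩ | ⟨h1, h2⟩ | ⟨m, h1, _⟩
        · left; rw [h1, h2]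
        · right; rw [h1, h2]
        · exact absurd h1 (Nat.succ_ne_zero m).symm
    · rw [mq_twice σM (cK h) z (Xm (m + 1)) (Ym (m + 1)) (br (Xm (m + 2))) (Ym m) (br (Xm m))
        (l2 _).2.2.1 (l2 _).2.1 (l2 _).2.2.1 (l2 _).2.1 (Y_ne_brX _ _) (Y_ne_brX _ _)
        (fun hh => absurd (injY hh) (Nat.succ_ne_self m)) (Y_ne_brX _ _),
        sumX1 hVEC h hF (m + 1), sumX2 hVEC h hF m, hz, hz]
      · unfold cX
        ring
      · rintro ⟨a, b⟩ ha hb hc
        rcases s1 (m + 1) a b ha hb (cK_ne hc) with ⟨h1, h2⟩ | ⟨h1, h2⟩ | ⟨m', h1, h2⟩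
        · left; left; rw [h1, h2]
        · left; right; rw [h1, h2]
        · have h3 : m' = m := by omega
          subst h3
          rcases h2 with ⟨h4, h5⟩ | ⟨h4, h5⟩
          · right; left; rw [h4, h5]
          · right; right; rw [h4, h5]
  · intro z hz n
    rw [mq_one σM (cK h) z (Ym n) (Xm n) (Xm (n + 1))
      (fun hh => absurd (injX hh) (Nat.succ_ne_self n).symm) (l2 _).1 (l2 _).1,
      sumY hVEC h hF n]
    · rfl
    · rintro ⟨a, b⟩ ha hb hc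
      rcases s2 n a b ha hb (cK_ne hc) with ⟨h1, h2⟩ | ⟨h1, h2⟩
      · left; rw [h1, h2]
      · right; rw [h1, h2]

end Pool.Agent.Y651.EP.Tab
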